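import Mathlib

set_option autoImplicit false

/-!
# Fitting's theorem: a product of two normal nilpotent subgroups is nilpotent
-/

namespace Pool.Agent.Helper94.Fitting

variable {G : Type*} [Group G]

/-- `⊤, H, [H,H], [[H,H],H], …` -/
def Gam (H : Subgroup G) : ℕ → Subgroup G
  | 0 => ⊤
  | 1 => H
  | (i + 2) => ⁅Gam H (i + 1), H⁆

theorem Gam_normal (H : Subgroup G) [H.Normal] : ∀ i, (Gam H i).Normal
  | 0 => by unfold Gam; infer_instance
  | 1 => by unfold Gam; infer_instance
  | (i + 2) => by
    have := Gam_normal H (i + 1)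
    unfold Gam
    infer_instance

theorem Gam_step (H : Subgroup G) [hH : H.Normal] (i : ℕ) (g h : G) (hg : g ∈ Gam H i)
    (hh : h ∈ H) : g * h * g⁻¹ * h⁻¹ ∈ Gam H (i + 1) := by
  cases i with
  | zero => exact H.mul_mem (hH.conj_mem h hh g) (H.inv_mem hh)
  | succ i =>
    have := Subgroup.commutator_mem_commutator hg hh
    rw [commutatorElement_def] at this
    exact this

theorem Gam_anti (H : Subgroup G) [H.Normal] (i : ℕ) : Gam H (i + 1) ≤ Gam H i := by
  cases i with
  | zero => exact le_top
  | succ i =>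
    have := Gam_normal H (i + 1)
    exact Subgroup.commutator_le_left _ _

theorem Gam_bot (H : Subgroup G) [H.Normal] (c : ℕ) (hc : Gam H (c + 1) = ⊥) (i : ℕ)
    (hi : c + 1 ≤ i) : Gam H i = ⊥ := by
  obtain ⟨k, rfl⟩ := Nat.exists_eq_add_of_le hi
  induction k with
  | zero => exact hc
  | succ k ih =>
    have h := Gam_anti H (c + 1 + k)
    rw [ih (by omega)] at h
    exact le_bot_iff.1 h

/-- normal closure of the pieces -/
def S (H K : Subgroup G) (n : ℕ) : Subgroup G :=
  Subgroup.normalClosure {g | ∃ i j, i + j = n ∧ g ∈ Gam H i ∧ g ∈ Gam K j}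

theorem S_step (H K : Subgroup G) [hH : H.Normal] [hK : K.Normal] (hHK : H ⊔ K = ⊤) (n : ℕ)
    (g b : G) (hg : g ∈ S H K n) : g * b * g⁻¹ * b⁻¹ ∈ S H K (n + 1) := by
  have hN : (S H K (n + 1)).Normal := Subgroup.normalClosure_normal
  have hle : S H K n ≤ (Subgroup.center (G ⧸ S H K (n + 1))).comap
      (QuotientGroup.mk' (S H K (n + 1))) := by
    refine Subgroup.normalClosure_le_normal ?_
    rintro g ⟨i, j, hij, hi, hj⟩
    show (QuotientGroup.mk' (S H K (n + 1))) g ∈ Subgroup.center _
    rw [Subgroup.mem_center_iff]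
    intro q
    obtain ⟨b, rfl⟩ := QuotientGroup.mk'_surjective (S H K (n + 1)) q
    have hb : b ∈ (Subgroup.centralizer {(QuotientGroup.mk' (S H K (n + 1))) g}).comap
        (QuotientGroup.mk' (S H K (n + 1))) := by
      have htop : (⊤ : Subgroup G) ≤ (Subgroup.centralizer
          {(QuotientGroup.mk' (S H K (n + 1))) g}).comap (QuotientGroup.mk' (S H K (n + 1))) := by
        have key : ∀ b : G, g * b * g⁻¹ * b⁻¹ ∈ S H K (n + 1) → b ∈ (Subgroup.centralizer
            {(QuotientGroup.mk' (S H K (n + 1))) g}).comap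
              (QuotientGroup.mk' (S H K (n + 1))) := by
          intro b hb
          have h1 : (QuotientGroup.mk' (S H K (n + 1))) (g * b * g⁻¹ * b⁻¹) = 1 :=
            (QuotientGroup.eq_one_iff _).2 hb
          rw [map_mul, map_mul, map_mul, map_inv, map_inv, mul_inv_eq_one,
            mul_inv_eq_iff_eq_mul] at h1
          show (QuotientGroup.mk' (S H K (n + 1))) b ∈ Subgroup.centralizer _
          rw [Subgroup.mem_centralizer_singleton_iff]
          exact h1.symm
        rw [← hHK]
        refine sup_le ?_ ?_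
        · intro b hb
          refine key b (Subgroup.subset_normalClosure ⟨i + 1, j, by omega, Gam_step H i g b hi hb, ?_⟩)
          have := Gam_normal K j
          rw [mul_assoc, mul_assoc]
          exact (Gam K j).mul_mem hj (by
            have := this.conj_mem _ ((Gam K j).inv_mem hj) b
            rwa [mul_assoc] at this)
        · intro b hb
          refine key b (Subgroup.subset_normalClosure ⟨i, j + 1, by omega, ?_, Gam_step K j g b hj hb⟩)
          have := Gam_normal H i
          rw [mul_assoc, mul_assoc]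
          exact (Gam H i).mul_mem hi (by
            have := this.conj_mem _ ((Gam H i).inv_mem hi) b
            rwa [mul_assoc] at this)
      exact htop (Subgroup.mem_top b)
    have h2 : (QuotientGroup.mk' (S H K (n + 1))) b ∈ Subgroup.centralizer _ := hb
    rw [Subgroup.mem_centralizer_singleton_iff] at h2
    exact h2
  have h3 : (QuotientGroup.mk' (S H K (n + 1))) g ∈ Subgroup.center _ := hle hg
  rw [Subgroup.mem_center_iff] at h3
  have h4 := h3 ((QuotientGroup.mk' (S H K (n + 1))) b)
  have h5 : (QuotientGroup.mk' (S H K (n + 1))) (g * b * g⁻¹ * b⁻¹) = 1 := by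
    rw [map_mul, map_mul, map_mul, map_inv, map_inv, mul_inv_eq_one, mul_inv_eq_iff_eq_mul]
    exact h4.symm
  exact (QuotientGroup.eq_one_iff _).1 h5

theorem Gam_map (H : Subgroup G) (c : ℕ) : Gam H (c + 1) = H.lowerCentralSeries c := by
  induction c with
  | zero => rfl
  | succ c ih =>
    show ⁅Gam H (c + 1), H⁆ = _
    rw [ih]; rfl

theorem fitting (H K : Subgroup G) [H.Normal] [K.Normal] (hHK : H ⊔ K = ⊤) (c d : ℕ)
    (hH : H.lowerCentralSeries c = ⊥) (hK : K.lowerCentralSeries d = ⊥) :
    (⊤ : Subgroup G).lowerCentralSeries (c + d) = ⊥ := by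
  have hle : ∀ n, (⊤ : Subgroup G).lowerCentralSeries n ≤ S H K (n + 1) := by
    intro n
    induction n with
    | zero =>
      rw [Subgroup.lowerCentralSeries_zero, ← hHK]
      refine sup_le ?_ ?_
      · intro b hb
        exact Subgroup.subset_normalClosure ⟨1, 0, by omega, hb, Subgroup.mem_top b⟩
      · intro b hb
        exact Subgroup.subset_normalClosure ⟨0, 1, by omega, Subgroup.mem_top b, hb⟩
    | succ n ih =>
      rw [Subgroup.lowerCentralSeries_succ, Subgroup.commutator_le]
      intro g hg b _
      rw [commutatorElement_def]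
      exact S_step H K hHK (n + 1) g b (ih hg)
  have hH' : Gam H (c + 1) = ⊥ := by rw [Gam_map, hH]
  have hK' : Gam K (d + 1) = ⊥ := by rw [Gam_map, hK]
  rw [← le_bot_iff]
  refine (hle (c + d)).trans ?_
  refine Subgroup.normalClosure_le_normal ?_
  rintro g ⟨i, j, hij, hi, hj⟩
  rcases Nat.lt_or_ge c i with h | h
  · rw [Gam_bot H c hH' i h] at hi
    exact hi
  · rw [Gam_bot K d hK' j (by omega)] at hj
    exact hj

/-- Fitting's theorem in terms of upper central series -/
theorem fitting_upper (H K : Subgroup G) [H.Normal] [K.Normal] (hHK : H ⊔ K = ⊤) (c d : ℕ)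
    (hH : Subgroup.upperCentralSeries H c = ⊤) (hK : Subgroup.upperCentralSeries K d = ⊤) :
    Subgroup.upperCentralSeries G (c + d) = ⊤ := by
  have conv : ∀ (L : Subgroup G) (e : ℕ), Subgroup.upperCentralSeries L e = ⊤ →
      L.lowerCentralSeries e = ⊥ := by
    intro L e h
    rw [← Subgroup.lowerCentralSeries_eq_bot_iff_upperCentralSeries_eq_top] at h
    have h2 := congrArg (Subgroup.map L.subtype) h
    rw [Subgroup.map_lowerCentralSeries, ← MonoidHom.range_eq_map, Subgroup.range_subtype,
      Subgroup.map_bot] at h2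
    exact h2
  rw [← Subgroup.lowerCentralSeries_eq_bot_iff_upperCentralSeries_eq_top]
  exact fitting H K hHK c d (conv H c hH) (conv K d hK)

end Pool.Agent.Helper94.Fitting
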